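import Pool.Agent.E8helper27.CB.Stm2

/-! Odd cycles (MP_773c61_co, project CB2): vectors in the plane. -/

set_option autoImplicit false

namespace E8h27.CB

theorem t_PLANE : S_PLANE := by
  intro m rho psi hrho hpsi hsum
  set T : ℝ := ∑ i, (Real.pi - psi i) with hT
  have hpi := Real.pi_pos
  have hT0 : 0 < T := lt_of_lt_of_le hpi hsum
  set lam : ℝ := Real.pi / T with hlam
  have hl0 : 0 < lam := div_pos hpi hT0
  have hl1 : lam ≤ 1 := (div_le_one hT0).2 hsum
  set ps : Fin (2 * m + 5) → ℝ := fun i => Real.pi - lam * (Real.pi - psi i) with hps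
  have h1 : ∀ i, psi i ≤ ps i := by
    intro i
    have h2 := (hpsi i).2
    simp only [hps]
    nlinarith
  have h2 : ∀ i, ps i ≤ Real.pi := by
    intro i
    have h3 := (hpsi i).2
    simp only [hps]
    nlinarith
  have h3 : ∑ i, ps i = ((m + 2 : ℕ) : ℝ) * (2 * Real.pi) := by
    simp only [hps]
    rw [Finset.sum_sub_distrib, ← Finset.mul_sum, ← hT, hlam, div_mul_cancel₀ _ hT0.ne']
    simp only [Finset.sum_const, Finset.card_univ, Fintype.card_fin, nsmul_eq_mul]
    push_cast
    ring
  set Th : ℕ → ℝ := fun n => ∑ k ∈ Finset.univ.filter (fun k : Fin (2 * m + 5) => k.val < n), ps k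
    with hTh
  have h4 : ∀ i : Fin (2 * m + 5), Th (i.val + 1) = ps i + Th i.val := by
    intro i
    simp only [hTh]
    have h5 : Finset.univ.filter (fun k : Fin (2 * m + 5) => k.val < i.val + 1) =
        insert i (Finset.univ.filter (fun k : Fin (2 * m + 5) => k.val < i.val)) := by
      ext k
      simp only [Finset.mem_filter, Finset.mem_univ, true_and, Finset.mem_insert, Fin.ext_iff]
      omega
    rw [h5, Finset.sum_insert]
    simp
  have h5 : Th 0 = 0 := by
    simp [hTh]
  have h6 : Th (2 * m + 5) = ((m + 2 : ℕ) : ℝ) * (2 * Real.pi) := by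
    rw [← h3]
    simp only [hTh]
    congr 1
    ext k
    simp only [Finset.mem_filter, Finset.mem_univ, true_and, iff_true]
    exact k.isLt
  refine ⟨fun i => rho i * Real.cos (Th i.val), fun i => rho i * Real.sin (Th i.val), ?_, ?_⟩
  · intro i
    have := Real.cos_sq_add_sin_sq (Th i.val)
    show rho i * Real.cos (Th i.val) * (rho i * Real.cos (Th i.val)) +
      rho i * Real.sin (Th i.val) * (rho i * Real.sin (Th i.val)) = rho i * rho i
    linear_combination rho i ^ 2 * this
  · intro i
    show rho i * Real.cos (Th i.val) * (rho (i + 1) * Real.cos (Th (i + 1).val)) +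
      rho i * Real.sin (Th i.val) * (rho (i + 1) * Real.sin (Th (i + 1).val)) ≤
        rho i * rho (i + 1) * Real.cos (psi i)
    have h7 : Real.cos (Th (i + 1).val - Th i.val) = Real.cos (ps i) := by
      have h8 : (i + 1).val = (i.val + 1) % (2 * m + 5) := by
        rw [Fin.val_add]
        simp
      rcases Nat.lt_or_ge (i.val + 1) (2 * m + 5) with h9 | h9
      · rw [h8, Nat.mod_eq_of_lt h9, h4]
        congr 1
        ring
      · have h10 : i.val + 1 = 2 * m + 5 := by
          have := i.isLt
          omega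
        rw [h8, h10, Nat.mod_self, h5]
        have h11 := h4 i
        rw [h10, h6] at h11
        have h12 : 0 - Th i.val = ps i - ((m + 2 : ℕ) : ℝ) * (2 * Real.pi) := by linarith
        rw [h12, Real.cos_sub_nat_mul_two_pi]
    have h8 : Real.cos (ps i) ≤ Real.cos (psi i) :=
      Real.cos_le_cos_of_nonneg_of_le_pi (hpsi i).1 (h2 i) (h1 i)
    rw [Real.cos_sub] at h7
    have h9 : 0 ≤ rho i * rho (i + 1) := mul_nonneg (hrho _) (hrho _)
    have h10 := mul_le_mul_of_nonneg_left h8 h9
    rw [← h7] at h10
    linarith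

end E8h27.CB
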